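import Pool.Agent.H32.RK.TargetsA
import Pool.Agent.H32.RK.TargetsB

/-!
# Row CL2 of hpk_modules: the denominator for one vector
-/

set_option autoImplicit false

open Finset NumberField Pool.Agent.H32.RQ Pool.Agent.H32.RK

namespace Pool.Agent.H49.RK

theorem inD_sum {K : Type} [Field K] [NumberField K] (hDUA : T_DUA K) {ι : Type} (s : Finset ι)
    (f : ι → K) (h : ∀ i ∈ s, InD (f i)) : InD (∑ i ∈ s, f i) := by
  classical
  induction s using Finset.induction_on with
  | empty =>
    rw [Finset.sum_empty]
    have h0 := hDUA.2.2.2.1 0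
    simpa using h0
  | insert a s ha ih =>
    rw [Finset.sum_insert ha]
    exact hDUA.1 _ _ (h a (Finset.mem_insert_self a s))
      (ih fun i hi => h i (Finset.mem_insert_of_mem hi))

theorem pf_CL2 (K : Type) [Field K] [NumberField K] (hDUA : T_DUA K) : T_CL2 K := by
  intro s x α hx h
  obtain ⟨a, ha⟩ := hx
  have h1 : ∑ i, (a i : K) * (x i : K) = 1 := by
    have h2 := congrArg (algebraMap (𝓞 K) K) ha
    rw [map_sum, map_one] at h2
    rw [← h2]
    exact Finset.sum_congr rfl fun i _ => (map_mul _ _ _).symm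
  have h3 : α = ∑ i, ∑ l, ((a i * a l : 𝓞 K) : K) * (α * x i * x l) := by
    calc α = α * ((∑ i, (a i : K) * (x i : K)) * ∑ l, (a l : K) * (x l : K)) := by
          rw [h1, mul_one, mul_one]
      _ = _ := by
          rw [Finset.sum_mul_sum, Finset.mul_sum]
          refine Finset.sum_congr rfl fun i _ => ?_
          rw [Finset.mul_sum]
          refine Finset.sum_congr rfl fun l _ => ?_
          have h4 : ((a i * a l : 𝓞 K) : K) = (a i : K) * (a l : K) := map_mul _ _ _
          rw [h4]
          ring
  rw [h3]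
  exact inD_sum hDUA _ _ fun i _ => inD_sum hDUA _ _ fun l _ => hDUA.2.2.1 _ _ (h i l)

end Pool.Agent.H49.RK
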