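import Pool.Agent.H32.RK.TargetsE
import Pool.Agent.H13.RQ.SMP

/-!
# Row SMP of hpk_modules: the pairs which are not smooth are zeros of a polynomial
-/

set_option autoImplicit false

open Finset NumberField Pool.Agent.H32.RQ Pool.Agent.H32.RK Polynomial Pool.Agent.H13.RQ

namespace Pool.Agent.H49.RK

/-- smoothness over a field, `1 ≤ s` -/
theorem smooth_of_dsc' {K : Type} [Field K] {s : ℕ} (hs : 1 ≤ s) (F : Fin 2 → Mon s → K)
    (hF : dsc F ≠ 0) (x : Fin s → K) (hx : x ≠ 0) (hq : qf (F 1) x = 0) :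
    LinearIndependent K ![dq (F 0) x, dq (F 1) x] := by
  unfold dsc at hF
  have hres := left_ne_zero_of_mul hF
  have hdet := right_ne_zero_of_mul hF
  rw [LinearIndependent.pair_iff]
  intro a b hab
  have hw : dq (F 1) x ≠ 0 := by
    intro h
    apply hx
    refine Matrix.eq_zero_of_mulVec_eq_zero hdet ?_
    rw [← h]
    funext j
    exact Hs_mulVec (F 1) x j
  by_cases ha : a = 0
  · rw [ha, zero_smul, zero_add] at hab
    exact ⟨ha, (smul_eq_zero.1 hab).resolve_right hw⟩
  exfalso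
  obtain ⟨τ, hτ⟩ : ∃ τ, τ = b / a := ⟨_, rfl⟩
  have h1 : ∀ j, dq (F 0) x j = -(τ * dq (F 1) x j) := by
    intro j
    have h2 := congrFun hab j
    simp only [Pi.add_apply, Pi.smul_apply, smul_eq_mul, Pi.zero_apply] at h2
    rw [hτ]
    field_simp
    linear_combination h2
  have hdvd : (X - C τ) ^ 2 ∣ (pen F).det := by
    refine sq_dvd_det (pen F) (fun j l => ?_) x (dq (F 1) x) τ hx (fun j => ?_) ?_
    · rw [pen_apply, pen_apply, Hs_symm (F 1) j l, Hs_symm (F 0) j l]
    · have h3 : ∀ l, C (x l) * pen F j l =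
          X * C (Hs (F 1) j l * x l) + C (Hs (F 0) j l * x l) := by
        intro l
        rw [pen_apply, C_mul, C_mul]
        ring
      rw [Finset.sum_congr rfl fun l _ => h3 l, Finset.sum_add_distrib, ← Finset.mul_sum,
        ← map_sum, ← map_sum, Hs_mulVec, Hs_mulVec, h1 j, C_neg, C_mul]
      ring
    · rw [Hs_euler, hq, mul_zero]
  obtain ⟨q, hq'⟩ := hdvd
  obtain ⟨u, v, -, -, huv⟩ := exists_mul_add_mul_eq_C_resultant (pen F).det
    (derivative (pen F).det) (m := s) (n := s - 1) (chi_natDegree F)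
    ((natDegree_derivative_le _).trans (Nat.sub_le_sub_right (chi_natDegree F) 1))
    (Or.inl (by omega))
  apply hres
  have h4 := congrArg (Polynomial.eval τ) huv
  rw [eval_C] at h4
  rw [← h4, hq']
  simp only [derivative_mul, derivative_pow, derivative_sub, derivative_X, derivative_C,
    eval_add, eval_mul, eval_pow, eval_sub, eval_X, eval_C, sub_self]
  ring

theorem pf_SMP : Pool.Agent.H32.RK.T_SMP := by
  intro s
  rcases Nat.eq_zero_or_pos s with hs | hs
  · subst hs
    exact ⟨1, one_ne_zero, fun K _ _ c _ x hx => absurd (Subsingleton.elim x 0) hx⟩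
  obtain ⟨P, hP⟩ : ∃ P, P = dsc (fun (i : Fin 2) (p : Mon s) =>
    (MvPolynomial.X (i, p) : MvPolynomial (Fin 2 × Mon s) ℤ)) := ⟨_, rfl⟩
  refine ⟨P, ?_, ?_⟩
  · intro h0
    apply dsc_c₀ s
    have h1 := dsc_map (MvPolynomial.eval₂Hom (Int.castRingHom ℚ)
      (fun q : Fin 2 × Mon s => c₀ s q.1 q.2)) (fun (i : Fin 2) (p : Mon s) =>
      (MvPolynomial.X (i, p) : MvPolynomial (Fin 2 × Mon s) ℤ))
    rw [← hP, h0, map_zero] at h1
    have h2 : (fun (i : Fin 2) (p : Mon s) => (MvPolynomial.eval₂Hom (Int.castRingHom ℚ)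
      (fun q : Fin 2 × Mon s => c₀ s q.1 q.2)) (MvPolynomial.X (i, p))) = c₀ s := by
      funext i p
      rw [MvPolynomial.eval₂Hom_X']
    rw [h2] at h1
    exact h1.symm
  · intro K _ _ c hc x hx hq
    have h0 : (fun i : Fin 2 => dq (fun p => algebraMap K (AlgebraicClosure K) (c i p : K)) x) =
        ![dq (fun p => algebraMap K (AlgebraicClosure K) (c 0 p : K)) x,
          dq (fun p => algebraMap K (AlgebraicClosure K) (c 1 p : K)) x] := by
      funext i
      fin_cases i <;> rfl
    rw [h0]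
    refine smooth_of_dsc' hs (fun i p => algebraMap K (AlgebraicClosure K) (c i p : K)) ?_ x hx
      (hq 1)
    have h1 := dsc_map (((algebraMap K (AlgebraicClosure K)).comp (algebraMap (𝓞 K) K)).comp
      (MvPolynomial.aeval (fun q : Fin 2 × Mon s => c q.1 q.2) :
        MvPolynomial (Fin 2 × Mon s) ℤ →ₐ[ℤ] 𝓞 K).toRingHom) (fun (i : Fin 2) (p : Mon s) =>
      (MvPolynomial.X (i, p) : MvPolynomial (Fin 2 × Mon s) ℤ))
    have h2 : (fun (i : Fin 2) (p : Mon s) =>
      (((algebraMap K (AlgebraicClosure K)).comp (algebraMap (𝓞 K) K)).comp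
      (MvPolynomial.aeval (fun q : Fin 2 × Mon s => c q.1 q.2) :
        MvPolynomial (Fin 2 × Mon s) ℤ →ₐ[ℤ] 𝓞 K).toRingHom) (MvPolynomial.X (i, p))) =
      fun i p => algebraMap K (AlgebraicClosure K) (c i p : K) := by
      funext i p
      rw [RingHom.comp_apply, RingHom.comp_apply]
      congr 2
      exact MvPolynomial.aeval_X _ _
    rw [h2, ← hP] at h1
    rw [← h1, RingHom.comp_apply, RingHom.comp_apply]
    intro h3
    apply hc
    have h4 := (algebraMap K (AlgebraicClosure K)).injective (h3.trans (map_zero _).symm)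
    exact FaithfulSMul.algebraMap_injective (𝓞 K) K (h4.trans (map_zero _).symm)

end Pool.Agent.H49.RK
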