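import Pool.Agent.H92.RK.Targets

set_option autoImplicit false

/-!
# MP_8f7db2_an, module RHO: the lengths of the rays
-/

open MeasureTheory Set
open scoped ENNReal

namespace Pool.Agent.H49.RK
open Pool.Agent.H92.RK

lemma pt_eq (r θ : ℝ) :
    pt r θ = (r * Real.cos θ) • (!₂[(1 : ℝ), 0] : E2) + (r * Real.sin θ) • (!₂[(0 : ℝ), 1] : E2) := by
  ext i
  fin_cases i <;> simp [pt]

lemma pt_cont : Continuous (fun p : ℝ × ℝ => pt p.1 p.2) := by
  have h : (fun p : ℝ × ℝ => pt p.1 p.2) = fun p : ℝ × ℝ =>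
      (p.1 * Real.cos p.2) • (!₂[(1 : ℝ), 0] : E2) +
        (p.1 * Real.sin p.2) • (!₂[(0 : ℝ), 1] : E2) := by
    funext p; exact pt_eq _ _
  rw [h]
  fun_prop

/-- the integrand -/
noncomputable def ig (Ω : Set E2) (p : ℝ × ℝ) : ℝ≥0∞ :=
  ({p : ℝ × ℝ | pt p.1 p.2 ∈ Ω}).indicator (fun p => ENNReal.ofReal (2 * p.1)) p

lemma ig_meas {Ω : Set E2} (hΩ : IsOpen Ω) : Measurable (ig Ω) := by
  have hS : MeasurableSet {p : ℝ × ℝ | pt p.1 p.2 ∈ Ω} := (hΩ.preimage pt_cont).measurableSet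
  exact (by fun_prop : Measurable (fun p : ℝ × ℝ => ENNReal.ofReal (2 * p.1))).indicator hS

lemma open_ray {Ω : Set E2} (hΩ : IsOpen Ω) (θ : ℝ) : IsOpen {r | pt r θ ∈ Ω} :=
  hΩ.preimage (pt_cont.comp (continuous_id.prodMk continuous_const))

lemma rv_eq {Ω : Set E2} (hΩ : IsOpen Ω) (θ : ℝ) :
    rv {r | pt r θ ∈ Ω} = ∫⁻ r in Ioi (0 : ℝ), ig Ω (r, θ) := by
  have hm : MeasurableSet {r | pt r θ ∈ Ω} := (open_ray hΩ θ).measurableSet
  unfold rv
  rw [← Measure.restrict_restrict hm, ← lintegral_indicator hm]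
  rfl

theorem pf_RHO (hLPO : T_LPO) : T_RHO := by
  intro Ω hΩ
  have hmeas : Measurable (fun θ => rv {r | pt r θ ∈ Ω}) := by
    have h1 : (fun θ => rv {r | pt r θ ∈ Ω}) = fun θ => ∫⁻ r in Ioi (0 : ℝ), ig Ω (r, θ) := by
      funext θ; exact rv_eq hΩ θ
    rw [h1]
    exact Measurable.lintegral_prod_left' (ig_meas hΩ)
  refine ⟨hmeas, ?_, ?_, fun θ => open_ray hΩ θ⟩
  · have h2 := hLPO (Ω.indicator (fun _ => 1)) (measurable_const.indicator hΩ.measurableSet)
    have h3 : ∫⁻ z, Ω.indicator (fun _ => (1 : ℝ≥0∞)) z = volume Ω := by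
      rw [lintegral_indicator hΩ.measurableSet]
      simp
    rw [h3] at h2
    have h4 : ∫⁻ θ in Ioo (-Real.pi) Real.pi, rv {r | pt r θ ∈ Ω} =
        ∫⁻ θ in Ioo (-Real.pi) Real.pi, ∫⁻ r in Ioi (0 : ℝ), ig Ω (r, θ) := by
      refine lintegral_congr fun θ => rv_eq hΩ θ
    rw [h4, h2, lintegral_lintegral_swap]
    · have h5 : ∀ r θ : ℝ, ig Ω (r, θ) =
          2 * (Ω.indicator (fun _ => (1 : ℝ≥0∞)) (pt r θ) * ENNReal.ofReal r) := by
        intro r θ
        by_cases h : pt r θ ∈ Ω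
        · have h' : (r, θ) ∈ {p : ℝ × ℝ | pt p.1 p.2 ∈ Ω} := h
          unfold ig
          rw [indicator_of_mem h', indicator_of_mem h, one_mul,
            ENNReal.ofReal_mul (by norm_num : (0 : ℝ) ≤ 2)]
          simp
        · have h' : (r, θ) ∉ {p : ℝ × ℝ | pt p.1 p.2 ∈ Ω} := h
          unfold ig
          rw [indicator_of_notMem h', indicator_of_notMem h]
          simp
      simp_rw [h5]
      have h6 : ∀ r : ℝ, Measurable fun θ : ℝ =>
          Ω.indicator (fun _ => (1 : ℝ≥0∞)) (pt r θ) * ENNReal.ofReal r := by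
        intro r
        have : Measurable fun θ : ℝ => Ω.indicator (fun _ => (1 : ℝ≥0∞)) (pt r θ) :=
          (measurable_const.indicator hΩ.measurableSet).comp
            (pt_cont.comp (continuous_const.prodMk continuous_id)).measurable
        exact this.mul_const _
      rw [← lintegral_const_mul' _ _ (by norm_num)]
      refine lintegral_congr fun r => ?_
      rw [lintegral_const_mul' _ _ (by norm_num)]
    · exact ((ig_meas hΩ).comp measurable_swap).aemeasurable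
  · intro θ h0 r hr hmem
    have ho : IsOpen ({r | pt r θ ∈ Ω} ∩ Ioi (0 : ℝ)) := (open_ray hΩ θ).inter isOpen_Ioi
    have hpos : 0 < volume ({r | pt r θ ∈ Ω} ∩ Ioi (0 : ℝ)) :=
      ho.measure_pos _ ⟨r, hmem, hr⟩
    unfold rv at h0
    rw [lintegral_eq_zero_iff (by fun_prop)] at h0
    have h7 : ∀ᵐ s ∂(volume.restrict ({r | pt r θ ∈ Ω} ∩ Ioi (0 : ℝ))), False := by
      filter_upwards [h0, ae_restrict_mem ho.measurableSet] with s hs1 hs2
      have h8 : 0 < s := hs2.2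
      have : ENNReal.ofReal (2 * s) = 0 := hs1
      rw [ENNReal.ofReal_eq_zero] at this
      linarith
    have h9 : volume ({r | pt r θ ∈ Ω} ∩ Ioi (0 : ℝ)) = 0 := by
      have := ae_iff.1 h7
      simpa using this
    exact hpos.ne' h9

end Pool.Agent.H49.RK
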